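import Pool.Agent.Lib_helper9.FPP.PercDefs

/-! # Block HV2: transfer of the subcritical estimate to the torus -/

set_option autoImplicit false

open MeasureTheory ProbabilityTheory
open scoped BigOperators

namespace Pool.Agent.Lib_helper9.FPP

/-! ### Walk lemmas -/

theorem h11_endpt_add {d : ℕ} (x v : Fin d → ℤ) (l : List (Step d)) :
    endpt (x + v) l = endpt x l + v := by
  induction l generalizing x with
  | nil => rfl
  | cons s l ih =>
    simp only [endpt]
    rw [← ih]
    congr 1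
    abel

theorem h11_pos_add {d : ℕ} (x v : Fin d → ℤ) (l : List (Step d)) (j : ℕ) :
    pos (x + v) l j = pos x l j + v := h11_endpt_add x v _

theorem h11_SAW_add {d : ℕ} (x v : Fin d → ℤ) (l : List (Step d)) (h : SAW (x + v) l) :
    SAW x l := by
  intro i j hi hj hij
  apply h i j hi hj
  rw [h11_pos_add, h11_pos_add, hij]

theorem h11_SAW_zero {d : ℕ} (x : Fin d → ℤ) (l : List (Step d)) (h : SAW x l) :
    SAW 0 l := by
  apply h11_SAW_add 0 x l
  rwa [zero_add]

theorem h11_pos_zero_eq {d : ℕ} (x : Fin d → ℤ) (l : List (Step d)) (j : ℕ) :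
    pos x l j = pos 0 l j + x := by
  have := h11_pos_add 0 x l j
  rwa [zero_add] at this

theorem h11_endpt_zero_eq {d : ℕ} (x : Fin d → ℤ) (l : List (Step d)) :
    endpt x l = endpt 0 l + x := by
  have := h11_endpt_add 0 x l
  rwa [zero_add] at this

theorem h11_SAW_take {d : ℕ} (x : Fin d → ℤ) (l : List (Step d)) (k : ℕ) (h : SAW x l) :
    SAW x (l.take k) := by
  intro i j hi hj hij
  rw [List.length_take] at hi hj
  have hi1 : i ≤ k := hi.trans (min_le_left _ _)
  have hj1 : j ≤ k := hj.trans (min_le_left _ _)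
  apply h i j (hi.trans (min_le_right _ _)) (hj.trans (min_le_right _ _))
  have e1 : pos x (l.take k) i = pos x l i := by
    unfold pos; rw [List.take_take, min_eq_left hi1]
  have e2 : pos x (l.take k) j = pos x l j := by
    unfold pos; rw [List.take_take, min_eq_left hj1]
  rw [e1, e2] at hij
  exact hij

theorem h11_zwalk_take {d : ℕ} (x : Fin d → ℤ) (l : List (Step d)) (k : ℕ) :
    zwalkEdges x (l.take k) = (zwalkEdges x l).take k := by
  induction l generalizing x k with
  | nil => simp [zwalkEdges]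
  | cons s l ih =>
    cases k with
    | zero => simp [zwalkEdges]
    | succ k => simp [zwalkEdges, ih]

theorem h11_mem_zwalk {d : ℕ} (x : Fin d → ℤ) (l : List (Step d)) (e : ZEdge d)
    (he : e ∈ zwalkEdges x l) : ∃ j ≤ l.length, e.1 = pos x l j := by
  induction l generalizing x with
  | nil => simp [zwalkEdges] at he
  | cons s l ih =>
    simp only [zwalkEdges, List.mem_cons] at he
    rcases he with he | he
    · by_cases hs : s.2 = true
      · refine ⟨0, Nat.zero_le _, ?_⟩
        rw [he]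
        simp [zedgeOf, stepBase, hs, pos, endpt]
      · refine ⟨1, by simp, ?_⟩
        rw [he]
        simp [zedgeOf, stepBase, hs, pos, endpt]
    · obtain ⟨j, hj, hj2⟩ := ih (x + stepVec s) he
      refine ⟨j + 1, by simpa using hj, ?_⟩
      rw [hj2]
      simp [pos, endpt]

/-- Projection of the edges of the lattice to the torus, after a translation by `x`. -/
def h11proj (n : ℕ) (x : Fin 2 → ℤ) (e : ZEdge 2) : TEdge 2 n :=
  ((fun α => ((e.1 α + x α : ℤ) : ZMod n)), e.2)

theorem h11_stepBase_add {d : ℕ} (x y : Fin d → ℤ) (s : Step d) :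
    stepBase (y + x) s = stepBase y s + x := by
  unfold stepBase
  split_ifs
  · rfl
  · abel

theorem h11_walk_proj (n : ℕ) (x y : Fin 2 → ℤ) (l : List (Step 2)) :
    walkEdges n (y + x) l = (zwalkEdges y l).map (h11proj n x) := by
  induction l generalizing y with
  | nil => simp [walkEdges, zwalkEdges]
  | cons s l ih =>
    simp only [walkEdges, zwalkEdges, List.map_cons]
    congr 1
    · simp only [edgeOf, h11proj, zedgeOf, h11_stepBase_add]
      rfl
    · rw [← ih]
      congr 1
      abel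

theorem h11_step_le {d : ℕ} (s : Step d) (α : Fin d) : |stepVec s α| ≤ 1 := by
  unfold stepVec
  split_ifs
  · by_cases h : α = s.1
    · subst h; simp
    · simp [Pi.single_eq_of_ne h]
  · by_cases h : α = s.1
    · subst h; simp
    · simp [Pi.single_eq_of_ne h]

theorem h11_pos_succ {d : ℕ} (x : Fin d → ℤ) (l : List (Step d)) (j : ℕ) (α : Fin d) :
    |pos x l (j + 1) α - pos x l j α| ≤ 1 := by
  induction l generalizing x j with
  | nil => simp [pos, endpt]
  | cons s l ih =>
    cases j with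
    | zero =>
      have : pos x (s :: l) (0 + 1) α - pos x (s :: l) 0 α = stepVec s α := by
        simp [pos, endpt]
      rw [this]; exact h11_step_le s α
    | succ j =>
      have := ih (x + stepVec s) j
      simpa [pos, endpt] using this

/-- Truncation of a walk at the first time of displacement at least `u`. -/
theorem h11_trunc (u : ℕ) (hu : 1 ≤ u) (l : List (Step 2)) (hs : SAW 0 l)
    (hd : ∃ α : Fin 2, (u : ℤ) ≤ |endpt 0 l α|) :
    ∃ k : ℕ, SAW 0 (l.take k) ∧ (∃ α : Fin 2, (u : ℤ) ≤ |endpt 0 (l.take k) α|) ∧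
      ∀ e ∈ zwalkEdges 0 (l.take k), ∀ α, |e.1 α| ≤ (u : ℤ) := by
  classical
  have hex : ∃ k : ℕ, ∃ α : Fin 2, (u : ℤ) ≤ |pos 0 l k α| := by
    refine ⟨l.length, ?_⟩
    simpa [pos] using hd
  set k := Nat.find hex with hk
  have hk1 : ∃ α : Fin 2, (u : ℤ) ≤ |pos 0 l k α| := Nat.find_spec hex
  have hk2 : ∀ j < k, ∀ α : Fin 2, |pos 0 l j α| < (u : ℤ) := by
    intro j hj α
    have := Nat.find_min hex hj
    push Not at this
    exact this α
  have hk0 : k ≠ 0 := by
    intro h0
    rw [h0] at hk1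
    obtain ⟨α, hα⟩ := hk1
    have : pos (0 : Fin 2 → ℤ) l 0 α = 0 := by simp [pos, endpt]
    rw [this] at hα
    simp at hα
    omega
  have hk3 : ∀ j ≤ k, ∀ α : Fin 2, |pos 0 l j α| ≤ (u : ℤ) := by
    intro j hj α
    rcases Nat.lt_or_ge j k with h | h
    · exact (hk2 j h α).le
    · have hjk : j = (k - 1) + 1 := by omega
      have h1 := hk2 (k - 1) (by omega) α
      have h2 := h11_pos_succ (0 : Fin 2 → ℤ) l (k - 1) α
      rw [hjk]
      rw [abs_le] at h2 ⊢
      rw [abs_lt] at h1
      omega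
  refine ⟨k, h11_SAW_take 0 l k hs, hk1, ?_⟩
  intro e he α
  obtain ⟨j, hj, hj2⟩ := h11_mem_zwalk 0 (l.take k) e he
  rw [hj2]
  have hjk : j ≤ k := by
    rw [List.length_take] at hj
    exact hj.trans (min_le_left _ _)
  have e1 : pos 0 (l.take k) j = pos 0 l j := by
    unfold pos; rw [List.take_take, min_eq_left hjk]
  rw [e1]
  exact hk3 j hjk α

/-! ### The finite event -/

/-- The box of edges. -/
noncomputable def h11K (u : ℕ) : Finset (ZEdge 2) :=
  (Fintype.piFinset (fun _ : Fin 2 => Finset.Icc (-(u : ℤ)) (u : ℤ))) ×ˢ Finset.univ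

theorem h11_mem_K (u : ℕ) (e : ZEdge 2) : e ∈ h11K u ↔ ∀ α, |e.1 α| ≤ (u : ℤ) := by
  unfold h11K
  rw [Finset.mem_product]
  simp only [Fintype.mem_piFinset, Finset.mem_Icc, Finset.mem_univ, and_true]
  constructor
  · intro h α
    rw [abs_le]
    exact h α
  · intro h α
    have := h α
    rw [abs_le] at this
    exact this

/-- Extension of a finite configuration. -/
noncomputable def h11ext (u : ℕ) (η : h11K u → Bool) (e : ZEdge 2) : Bool :=
  if h : e ∈ h11K u then η ⟨e, h⟩ else false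

/-- The finite event. -/
def h11E (u : ℕ) (c : ℝ) : Set (h11K u → Bool) :=
  {η | ∃ l : List (Step 2), SAW 0 l ∧ (∃ α : Fin 2, (u : ℤ) ≤ |endpt 0 l α|) ∧
    (∀ e ∈ zwalkEdges 0 l, e ∈ h11K u) ∧ (closedCount (h11ext u η) 0 l : ℝ) < c * u}

theorem h11_closed_congr (ω ω' : ZEdge 2 → Bool) (l : List (Step 2))
    (h : ∀ e ∈ zwalkEdges 0 l, ω e = ω' e) : closedCount ω 0 l = closedCount ω' 0 l := by
  unfold closedCount
  apply List.countP_congr
  intro e he
  rw [h e he]

theorem h11_claimA (u : ℕ) (c : ℝ) :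
    {ω : ZEdge 2 → Bool | (h11K u).restrict ω ∈ h11E u c} ⊆
      {ω | ∃ l : List (Step 2), SAW 0 l ∧ (∃ α : Fin 2, (u : ℤ) ≤ |endpt 0 l α|) ∧
          (closedCount ω 0 l : ℝ) < c * u} := by
  rintro ω ⟨l, h1, h2, h3, h4⟩
  refine ⟨l, h1, h2, ?_⟩
  rw [h11_closed_congr ω (h11ext u ((h11K u).restrict ω)) l]
  · exact h4
  · intro e he
    simp [h11ext, h3 e he, Finset.restrict]

/-- The finite configuration seen from `x`. -/
noncomputable def h11g (n u : ℕ) (b : ℝ) (x : Fin 2 → ℤ) (t : TEdge 2 n → ℝ) : h11K u → Bool :=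
  fun k => decide (t (h11proj n x k.1) < b)

theorem h11_heavy_eq (n : ℕ) (b : ℝ) (t : TEdge 2 n → ℝ) (x : Fin 2 → ℤ) (l : List (Step 2)) :
    heavyCount b t x l = closedCount (fun e => decide (t (h11proj n x e) < b)) 0 l := by
  unfold heavyCount closedCount
  have h := h11_walk_proj n x 0 l
  rw [zero_add] at h
  rw [h, List.countP_map]
  apply List.countP_congr
  intro e _
  simp

theorem h11_closed_take (ω : ZEdge 2 → Bool) (l : List (Step 2)) (k : ℕ) :
    closedCount ω 0 (l.take k) ≤ closedCount ω 0 l := by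
  unfold closedCount
  rw [h11_zwalk_take]
  exact (List.take_sublist _ _).countP_le

theorem h11_claimB (N : ℕ) (hN : 0 < N) (u : ℕ) (hudef : u = Nat.sqrt N) (b c : ℝ) (hu : 1 ≤ u) :
    Bad N b c ⊆ ⋃ x ∈ Fintype.piFinset (fun _ : Fin 2 => Finset.Ico (0 : ℤ) (N : ℤ)),
      {t : TEdge 2 N → ℝ | h11g N u b x t ∈ h11E u c} := by
  rintro t ⟨x, l, hs, hd, hh⟩
  rw [← hudef] at hd hh
  have hN0 : (0 : ℤ) < (N : ℤ) := by exact_mod_cast hN
  let x0 : Fin 2 → ℤ := fun α => x α % (N : ℤ)
  simp only [Set.mem_iUnion, exists_prop]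
  refine ⟨x0, ?_, ?_⟩
  · rw [Fintype.mem_piFinset]
    intro α
    rw [Finset.mem_Ico]
    exact ⟨Int.emod_nonneg _ hN0.ne', Int.emod_lt_of_pos _ hN0⟩
  · have hproj : h11proj N x0 = h11proj N x := by
      funext e
      unfold h11proj
      congr 1
      funext α
      simp only [x0]
      push_cast
      rfl
    have hs0 : SAW 0 l := h11_SAW_zero x l hs
    have hd0 : ∃ α : Fin 2, (u : ℤ) ≤ |endpt 0 l α| := by
      obtain ⟨α, hα⟩ := hd
      refine ⟨α, ?_⟩
      rw [h11_endpt_zero_eq x l] at hα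
      simpa using hα
    obtain ⟨k, h1, h2, h3⟩ := h11_trunc u hu l hs0 hd0
    have hmemK : ∀ e ∈ zwalkEdges 0 (l.take k), e ∈ h11K u := fun e he =>
      (h11_mem_K u e).2 (h3 e he)
    refine ⟨l.take k, h1, h2, hmemK, ?_⟩
    have e1 : closedCount (h11ext u (h11g N u b x0 t)) 0 (l.take k) =
        closedCount (fun e => decide (t (h11proj N x e) < b)) 0 (l.take k) := by
      apply h11_closed_congr
      intro e he
      simp [h11ext, hmemK e he, h11g, hproj]
    rw [e1]
    refine lt_of_le_of_lt ?_ hh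
    rw [h11_heavy_eq]
    exact_mod_cast h11_closed_take _ l k

/-! ### The law of the finite configuration -/

theorem h11_proj_inj (n u : ℕ) (x : Fin 2 → ℤ) (h : 2 * u + 1 ≤ n) :
    Function.Injective (fun k : h11K u => h11proj n x k.1) := by
  rintro ⟨⟨y, i⟩, hy⟩ ⟨⟨z, j⟩, hz⟩ hyz
  have hy' := (h11_mem_K u _).1 hy
  have hz' := (h11_mem_K u _).1 hz
  simp only [h11proj, Prod.mk.injEq] at hyz
  obtain ⟨h1, h2⟩ := hyz
  have h3 : y = z := by
    funext α
    have h4 := congrFun h1 α
    rw [ZMod.intCast_eq_intCast_iff_dvd_sub] at h4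
    have h5 : (n : ℤ) ∣ z α - y α := by
      have : z α - y α = (z α + x α) - (y α + x α) := by ring
      rw [this]; exact h4
    have h6 := hy' α
    have h7 := hz' α
    rw [abs_le] at h6 h7
    simp only at h6 h7
    by_contra hne
    have hne' : z α - y α ≠ 0 := fun h => hne (by omega)
    have h8 := Int.le_of_dvd (abs_pos.2 hne') ((dvd_abs _ _).2 h5)
    have h9 : |z α - y α| ≤ 2 * u := by
      rw [abs_le]; omega
    omega
  subst h3
  subst h2
  rfl

theorem h11_map_bern (F : Measure ℝ) [IsProbabilityMeasure F] (b : ℝ)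
    (hq : F.real (Set.Iio b) ∈ unitInterval) :
    F.map (fun y => decide (y < b)) = bern ⟨F.real (Set.Iio b), hq⟩ := by
  have hm : Measurable (fun y : ℝ => decide (y < b)) := by
    apply measurable_to_bool
    have : (fun y : ℝ => decide (y < b)) ⁻¹' {true} = Set.Iio b := by
      ext y; simp
    rw [this]; exact measurableSet_Iio
  ext s hs
  rw [Measure.map_apply hm hs]
  have hcomp : (1 : ℝ) - F.real (Set.Iio b) = F.real (Set.Iio b)ᶜ := by
    rw [probReal_compl_eq_one_sub measurableSet_Iio]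
  have h1 : F (Set.Iio b) = ENNReal.ofReal (F.real (Set.Iio b)) := by
    rw [ofReal_measureReal]
  have h2 : F (Set.Iio b)ᶜ = ENNReal.ofReal (1 - F.real (Set.Iio b)) := by
    rw [hcomp, ofReal_measureReal]
  simp only [bern, Measure.add_apply, Measure.smul_apply, smul_eq_mul]
  rw [← h1, ← h2]
  by_cases ht : true ∈ s <;> by_cases hf : false ∈ s
  · have : (fun y : ℝ => decide (y < b)) ⁻¹' s = Set.univ := by
      ext y
      by_cases hy : y < b <;> simp [hy, ht, hf]
    rw [this, measure_univ]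
    have h3 : Measure.dirac true s = 1 := by simp [ht]
    have h4 : Measure.dirac false s = 1 := by simp [hf]
    rw [h3, h4, mul_one, mul_one]
    exact (prob_add_prob_compl measurableSet_Iio).symm
  · have : (fun y : ℝ => decide (y < b)) ⁻¹' s = Set.Iio b := by
      ext y
      by_cases hy : y < b
      · simp [hy, ht]
      · simp [hy, hf]
    rw [this]
    have h3 : Measure.dirac true s = 1 := by simp [ht]
    have h4 : Measure.dirac false s = 0 := by simp [hf]
    rw [h3, h4, mul_one, mul_zero, add_zero]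
  · have : (fun y : ℝ => decide (y < b)) ⁻¹' s = (Set.Iio b)ᶜ := by
      ext y
      by_cases hy : y < b
      · simp [hy, ht]
      · simp [hy, hf, not_lt.1 hy]
    rw [this]
    have h3 : Measure.dirac true s = 0 := by simp [ht]
    have h4 : Measure.dirac false s = 1 := by simp [hf]
    rw [h3, h4, mul_one, mul_zero, zero_add]
  · have : (fun y : ℝ => decide (y < b)) ⁻¹' s = ∅ := by
      ext y
      by_cases hy : y < b
      · simp [hy, ht]
      · simp [hy, hf]
    rw [this]
    have h3 : Measure.dirac true s = 0 := by simp [ht]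
    have h4 : Measure.dirac false s = 0 := by simp [hf]
    rw [h3, h4, mul_zero, mul_zero, add_zero, measure_empty]

theorem h11_claimC (n u : ℕ) [NeZero n] (h : 2 * u + 1 ≤ n) (F : Measure ℝ)
    [IsProbabilityMeasure F] (b : ℝ) (hq : F.real (Set.Iio b) ∈ unitInterval) (x : Fin 2 → ℤ) :
    (Measure.pi (fun _ : TEdge 2 n => F)).map (h11g n u b x) =
      Measure.pi (fun _ : h11K u => bern ⟨F.real (Set.Iio b), hq⟩) := by
  set P := Measure.pi (fun _ : TEdge 2 n => F) with hP
  have hm : Measurable (fun y : ℝ => decide (y < b)) := by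
    apply measurable_to_bool
    have : (fun y : ℝ => decide (y < b)) ⁻¹' {true} = Set.Iio b := by
      ext y; simp
    rw [this]; exact measurableSet_Iio
  have hind : iIndepFun (fun (i : TEdge 2 n) (t : TEdge 2 n → ℝ) => decide (t i < b)) P := by
    have := iIndepFun_pi (μ := fun _ : TEdge 2 n => F) (X := fun _ => (fun y : ℝ => decide (y < b)))
      (fun _ => hm.aemeasurable)
    exact this
  have hind2 := hind.precomp (h11_proj_inj n u x h)
  have hmeas : ∀ k : h11K u, AEMeasurable
      (fun t : TEdge 2 n → ℝ => decide (t (h11proj n x k.1) < b)) P := fun k =>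
    (hm.comp (measurable_pi_apply _)).aemeasurable
  have h1 := (iIndepFun_iff_map_fun_eq_pi_map hmeas).1 hind2
  have h2 : (fun (ω : TEdge 2 n → ℝ) (i : h11K u) => decide (ω (h11proj n x i.1) < b)) =
      h11g n u b x := rfl
  rw [h2] at h1
  rw [h1]
  congr 1
  funext k
  have hmp : MeasurePreserving (Function.eval (h11proj n x k.1)) P F :=
    measurePreserving_eval (fun _ : TEdge 2 n => F) _
  rw [← h11_map_bern F b hq]
  conv_rhs => rw [← hmp.map_eq]
  rw [Measure.map_map hm hmp.measurable]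
  rfl

theorem h11_bad_le (N : ℕ) [NeZero N] (F : Measure ℝ) [IsProbabilityMeasure F] (b c : ℝ)
    (hq : F.real (Set.Iio b) ∈ unitInterval) (u : ℕ) (hudef : u = Nat.sqrt N)
    (hu : 1 ≤ u) (h2 : 2 * u + 1 ≤ N) :
    (Measure.pi (fun _ : TEdge 2 N => F)) (Bad N b c) ≤
      (N : ENNReal) ^ 2 * percMeasure 2 ⟨F.real (Set.Iio b), hq⟩
        {ω | ∃ l : List (Step 2), SAW 0 l ∧ (∃ α : Fin 2, (u : ℤ) ≤ |endpt 0 l α|) ∧
          (closedCount ω 0 l : ℝ) < c * u} := by
  set P := Measure.pi (fun _ : TEdge 2 N => F) with hP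
  set p : unitInterval := ⟨F.real (Set.Iio b), hq⟩ with hp
  have hg : ∀ x, Measurable (h11g N u b x) := by
    intro x
    have hm : Measurable (fun y : ℝ => decide (y < b)) := by
      apply measurable_to_bool
      have : (fun y : ℝ => decide (y < b)) ⁻¹' {true} = Set.Iio b := by
        ext y; simp
      rw [this]; exact measurableSet_Iio
    apply measurable_pi_lambda
    intro k
    exact hm.comp (measurable_pi_apply _)
  have hE : MeasurableSet (h11E u c) := Set.Finite.measurableSet (Set.toFinite _)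
  have hbound : ∀ x : Fin 2 → ℤ, P {t : TEdge 2 N → ℝ | h11g N u b x t ∈ h11E u c} ≤
      percMeasure 2 p {ω | ∃ l : List (Step 2), SAW 0 l ∧ (∃ α : Fin 2, (u : ℤ) ≤ |endpt 0 l α|) ∧
          (closedCount ω 0 l : ℝ) < c * u} := by
    intro x
    have e1 : P {t : TEdge 2 N → ℝ | h11g N u b x t ∈ h11E u c} = P.map (h11g N u b x) (h11E u c) := by
      rw [Measure.map_apply (hg x) hE]
      rfl
    rw [e1, h11_claimC N u h2 F b hq x]
    have e2 : Measure.pi (fun _ : h11K u => bern p) =
        (percMeasure 2 p).map (h11K u).restrict := by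
      unfold percMeasure
      rw [Measure.infinitePi_map_restrict]
    rw [← hp, e2, Measure.map_apply (Finset.measurable_restrict _) hE]
    exact measure_mono (h11_claimA u c)
  refine (measure_mono (h11_claimB N (Nat.pos_of_neZero N) u hudef b c hu)).trans ?_
  refine (measure_biUnion_finset_le _ _).trans ?_
  refine (Finset.sum_le_sum fun x _ => hbound x).trans ?_
  rw [Finset.sum_const, nsmul_eq_mul]
  gcongr
  have hcard : (Fintype.piFinset (fun _ : Fin 2 => Finset.Ico (0 : ℤ) (N : ℤ))).card =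
      N ^ 2 := by
    rw [Fintype.card_piFinset]
    simp
  rw [hcard]
  push_cast
  exact le_rfl

/-- HV2, from the conclusions of the blocks DCT and CHAIN. -/
theorem heavy_of_pc_of
    (hDCT : ∀ p : unitInterval, (p : ℝ) < pc 2 →
      ∃ S : Finset (Fin 2 → ℤ), 0 ∈ S ∧ phi p S < 1)
    (hCHAIN : ∀ (p : unitInterval) (S : Finset (Fin 2 → ℤ)), 0 ∈ S → phi p S < 1 →
      ∃ c C : ℝ, 0 < c ∧ c ≤ 1 ∧ 0 < C ∧ ∀ u : ℕ, 1 ≤ u →
      (percMeasure 2 p).real
        {ω | ∃ l : List (Step 2), SAW 0 l ∧ (∃ α : Fin 2, (u : ℤ) ≤ |endpt 0 l α|) ∧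
          (closedCount ω 0 l : ℝ) < c * u} ≤ C * Real.exp (-c * u))
    (F : Measure ℝ) [IsProbabilityMeasure F] (b : ℝ)
    (hq : F.real (Set.Iio b) < pc 2) :
    ∃ c : ℝ, 0 < c ∧ c ≤ 1 ∧
      Filter.Tendsto (fun n : ℕ => (Measure.pi (fun _ : TEdge 2 (n + 1) => F)) (Bad (n + 1) b c))
        Filter.atTop (nhds 0) := by
  have hqI : F.real (Set.Iio b) ∈ unitInterval := ⟨measureReal_nonneg, measureReal_le_one⟩
  set p : unitInterval := ⟨F.real (Set.Iio b), hqI⟩ with hp
  obtain ⟨S, hS0, hS1⟩ := hDCT p hq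
  obtain ⟨c, C, hc0, hc1, hC, hch⟩ := hCHAIN p S hS0 hS1
  refine ⟨c, hc0, hc1, ?_⟩
  have hsq : Filter.Tendsto (fun n : ℕ => Nat.sqrt (n + 1)) Filter.atTop Filter.atTop := by
    rw [Filter.tendsto_atTop_atTop]
    intro m
    refine ⟨m * m, fun n hn => ?_⟩
    rw [Nat.le_sqrt]
    omega
  -- the bounding function of `u`
  have hf : Filter.Tendsto (fun u : ℕ => ENNReal.ofReal (((u : ℝ) + 1) ^ 4 *
      (C * Real.exp (-c * u)))) Filter.atTop (nhds 0) := by
    have h1 : Filter.Tendsto (fun x : ℝ => x ^ 4 * Real.exp (-x)) Filter.atTop (nhds 0) :=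
      Real.tendsto_pow_mul_exp_neg_atTop_nhds_zero 4
    have h2 : Filter.Tendsto (fun u : ℕ => c * ((u : ℝ) + 1)) Filter.atTop Filter.atTop := by
      apply Filter.Tendsto.const_mul_atTop hc0
      exact Filter.tendsto_atTop_add_const_right _ _ tendsto_natCast_atTop_atTop
    have h3 := (h1.comp h2).const_mul (C * Real.exp c / c ^ 4)
    rw [mul_zero] at h3
    have h4 : (fun u : ℕ => ((u : ℝ) + 1) ^ 4 * (C * Real.exp (-c * u))) =
        fun u : ℕ => C * Real.exp c / c ^ 4 *
          ((fun x : ℝ => x ^ 4 * Real.exp (-x)) ∘ fun u : ℕ => c * ((u : ℝ) + 1)) u := by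
      funext u
      simp only [Function.comp]
      have : Real.exp (-(c * ((u : ℝ) + 1))) = Real.exp (-c * u) * Real.exp (-c) := by
        rw [← Real.exp_add]; congr 1; ring
      rw [this]
      have h5 : Real.exp c * Real.exp (-c) = 1 := by
        rw [← Real.exp_add]; simp
      field_simp
      linarith [h5]
    rw [← h4] at h3
    have h5 := ENNReal.tendsto_ofReal h3
    rw [ENNReal.ofReal_zero] at h5
    exact h5
  have hf2 := hf.comp hsq
  refine tendsto_of_tendsto_of_tendsto_of_le_of_le' tendsto_const_nhds hf2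
    (Filter.Eventually.of_forall fun _ => zero_le) ?_
  filter_upwards [hsq.eventually_ge_atTop 3] with n hn
  set u := Nat.sqrt (n + 1) with hudef
  have hN : ∃ N : ℕ, N = n + 1 := ⟨_, rfl⟩
  obtain ⟨N, hN⟩ := hN
  have hu1 : 1 ≤ u := by omega
  have hu2 : u * u ≤ N := by rw [hN]; exact Nat.sqrt_le (n + 1)
  have hu3 : N < (u + 1) * (u + 1) := by rw [hN]; exact Nat.lt_succ_sqrt (n + 1)
  have h2 : 2 * u + 1 ≤ N := by nlinarith
  have hb := h11_bad_le (n + 1) F b c hqI u hudef hu1 (by rw [← hN]; exact h2)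
  refine hb.trans ?_
  rw [← hN]
  rw [← hp]
  simp only [Function.comp]
  have hch' := hch u hu1
  have e1 : percMeasure 2 p
        {ω | ∃ l : List (Step 2), SAW 0 l ∧ (∃ α : Fin 2, (u : ℤ) ≤ |endpt 0 l α|) ∧
          (closedCount ω 0 l : ℝ) < c * u} ≤ ENNReal.ofReal (C * Real.exp (-c * u)) := by
    have : IsProbabilityMeasure (percMeasure 2 p) := by
      unfold percMeasure; infer_instance
    rw [← ofReal_measureReal (measure_ne_top _ _)]
    exact ENNReal.ofReal_le_ofReal hch'
  rw [ENNReal.ofReal_mul (by positivity)]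
  refine mul_le_mul' ?_ e1
  have e2 : ((N : ℕ) : ENNReal) ^ 2 = ENNReal.ofReal ((N : ℝ) ^ 2) := by
    rw [ENNReal.ofReal_pow (by positivity), ENNReal.ofReal_natCast]
  rw [e2]
  apply ENNReal.ofReal_le_ofReal
  have h5 : (N : ℝ) ≤ ((u : ℝ) + 1) ^ 2 := by
    have : (N : ℝ) < ((u : ℝ) + 1) * ((u : ℝ) + 1) := by exact_mod_cast hu3
    nlinarith
  calc (N : ℝ) ^ 2 ≤ (((u : ℝ) + 1) ^ 2) ^ 2 := by gcongr
    _ = ((u : ℝ) + 1) ^ 4 := by ring

end Pool.Agent.Lib_helper9.FPP
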