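import Pool.Agent.Lib_helper11.FPP.LLN

/-! # Block L2: measurability and square integrability of the passage time -/

set_option autoImplicit false

open MeasureTheory ProbabilityTheory
open scoped BigOperators

namespace Pool.Agent.Lib_helper9.FPP

theorem h11_measurable_cost {d n : ℕ} (x : Fin d → ℤ) (l : List (Step d)) :
    Measurable (fun t : TEdge d n → ℝ => cost t x l) := by
  induction l generalizing x with
  | nil => simp [cost, walkEdges]
  | cons s l ih =>
    have : (fun t : TEdge d n → ℝ => cost t x (s :: l)) =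
        fun t => t (edgeOf n x s) + cost t (x + stepVec s) l := by
      funext t; simp [cost, walkEdges]
    rw [this]
    exact (measurable_pi_apply _).add (ih _)

/-- L2a. -/
theorem measurable_loopTime_proof (d n : ℕ) [NeZero d] : Measurable (loopTime d n) := by
  let I := {p : (Fin d → ℤ) × List (Step d) // endpt p.1 p.2 = p.1 + Pi.single 0 (n : ℤ)}
  have : loopTime d n = fun t => ⨅ i : I, cost t i.1.1 i.1.2 := by
    funext t
    unfold loopTime
    rw [iInf]
    congr 1
    ext c
    constructor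
    · rintro ⟨x, l, h1, h2⟩
      exact ⟨⟨(x, l), h1⟩, h2⟩
    · rintro ⟨⟨⟨x, l⟩, h1⟩, h2⟩
      exact ⟨x, l, h1, h2⟩
  rw [this]
  have : Countable I := inferInstance
  exact Measurable.iInf (fun i => h11_measurable_cost i.1.1 i.1.2)

theorem h11_cost_nonneg {d n : ℕ} (t : TEdge d n → ℝ) (ht : ∀ e, 0 ≤ t e) (x : Fin d → ℤ)
    (l : List (Step d)) : 0 ≤ cost t x l := by
  unfold cost
  apply List.sum_nonneg
  intro a ha
  rw [List.mem_map] at ha
  obtain ⟨e, _, rfl⟩ := ha
  exact ht e

theorem h11_endpt_straight (m : ℕ) (x : Fin 2 → ℤ) :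
    endpt x (straight m) = x + Pi.single 0 (m : ℤ) := by
  induction m generalizing x with
  | zero => simp [straight, endpt]
  | succ m ih =>
    have h1 : straight (m + 1) = (0, true) :: straight m := rfl
    rw [h1]
    simp only [endpt]
    rw [ih]
    have hs : stepVec ((0, true) : Step 2) = Pi.single 0 1 := by simp [stepVec]
    rw [hs, add_assoc, ← Pi.single_add]
    push_cast
    rw [add_comm (1 : ℤ)]

/-- L2b. -/
theorem memLp_loopTime_proof (n : ℕ) (F : Measure ℝ) [IsProbabilityMeasure F]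
    (hpos : F (Set.Iio 0) = 0) (h2 : Integrable (fun y : ℝ => y ^ 2) F) :
    MemLp (loopTime 2 (n + 1)) 2 (Measure.pi (fun _ : TEdge 2 (n + 1) => F)) := by
  set P := Measure.pi (fun _ : TEdge 2 (n + 1) => F) with hP
  have hmem : MemLp (id : ℝ → ℝ) 2 F :=
    (memLp_two_iff_integrable_sq (aestronglyMeasurable_id)).2 (by simpa using h2)
  have hae : ∀ᵐ t ∂P, ∀ e, (0 : ℝ) ≤ t e := by
    rw [ae_all_iff]
    intro e
    have hmp : MeasurePreserving (Function.eval e) P F :=
      measurePreserving_eval (fun _ : TEdge 2 (n + 1) => F) e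
    have hF : ∀ᵐ y ∂F, (0 : ℝ) ≤ y := by
      rw [ae_iff]
      have : {a : ℝ | ¬ 0 ≤ a} = Set.Iio 0 := by
        ext a; simp
      rw [this]; exact hpos
    exact hmp.quasiMeasurePreserving.ae hF
  have hsum : MemLp (fun t : TEdge 2 (n + 1) → ℝ =>
      ∑ j ∈ Finset.range (n + 1), t (edgeOf (n + 1) ((0 : Fin 2 → ℤ) + Pi.single 0 (j : ℤ))
        ((0, true) : Step 2))) 2 P := by
    apply memLp_finsetSum
    intro j _
    exact hmem.comp_measurePreserving
      (measurePreserving_eval (fun _ : TEdge 2 (n + 1) => F) _)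
  refine MemLp.mono hsum (measurable_loopTime_proof 2 (n + 1)).aestronglyMeasurable ?_
  filter_upwards [hae] with t ht
  rw [← h11_cost_straight]
  have hbdd : BddBelow {c : ℝ | ∃ (x : Fin 2 → ℤ) (l : List (Step 2)),
      endpt x l = x + Pi.single 0 ((n + 1 : ℕ) : ℤ) ∧ cost t x l = c} := by
    refine ⟨0, ?_⟩
    rintro c ⟨x, l, _, rfl⟩
    exact h11_cost_nonneg t ht x l
  have h0 : 0 ≤ loopTime 2 (n + 1) t := by
    apply Real.sInf_nonneg
    rintro c ⟨x, l, _, rfl⟩
    exact h11_cost_nonneg t ht x l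
  have h1 : loopTime 2 (n + 1) t ≤ cost t 0 (straight (n + 1)) :=
    csInf_le hbdd ⟨0, straight (n + 1), h11_endpt_straight (n + 1) 0, rfl⟩
  rw [Real.norm_of_nonneg h0, Real.norm_of_nonneg (h0.trans h1)]
  exact h1

end Pool.Agent.Lib_helper9.FPP
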