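import Pool.Agent.Lib_helper9.FPP.Defs

/-! # Block LLN: the cost of the straight walk -/

set_option autoImplicit false

open MeasureTheory ProbabilityTheory
open scoped BigOperators

namespace Pool.Agent.Lib_helper9.FPP

theorem h11_cost_straight (N : ℕ) (t : TEdge 2 N → ℝ) (m : ℕ) (x : Fin 2 → ℤ) :
    cost t x (straight m) =
      ∑ j ∈ Finset.range m, t (edgeOf N (x + Pi.single 0 (j : ℤ)) (0, true)) := by
  induction m generalizing x with
  | zero => simp [cost, straight, walkEdges]
  | succ m ih =>
    have h1 : straight (m + 1) = (0, true) :: straight m := rfl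
    have h2 : cost t x (straight (m + 1)) =
        t (edgeOf N x (0, true)) + cost t (x + stepVec ((0, true) : Step 2)) (straight m) := by
      rw [h1]
      simp [cost, walkEdges]
    rw [h2, ih, Finset.sum_range_succ']
    rw [add_comm]
    congr 1
    · refine Finset.sum_congr rfl fun j _ => ?_
      have : x + stepVec ((0, true) : Step 2) + Pi.single 0 (j : ℤ) =
          x + Pi.single 0 ((j + 1 : ℕ) : ℤ) := by
        have hs : stepVec ((0, true) : Step 2) = Pi.single 0 1 := by simp [stepVec]
        rw [hs, add_assoc, ← Pi.single_add]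
        push_cast
        rw [add_comm (1 : ℤ)]
      rw [this]
    · simp

theorem h11_edge_inj (N : ℕ) (j k : ℕ) (hj : j < N) (hk : k < N)
    (h : edgeOf N ((0 : Fin 2 → ℤ) + Pi.single 0 (j : ℤ)) ((0, true) : Step 2) =
      edgeOf N ((0 : Fin 2 → ℤ) + Pi.single 0 (k : ℤ)) ((0, true) : Step 2)) : j = k := by
  have h1 := congrArg Prod.fst h
  have h2 := congrFun h1 0
  simp only [edgeOf, stepBase, if_true, zero_add, Pi.single_eq_same] at h2
  have h3 : ((j : ℕ) : ZMod N) = ((k : ℕ) : ZMod N) := by exact_mod_cast h2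
  rw [ZMod.natCast_eq_natCast_iff] at h3
  have := Nat.ModEq.eq_of_lt_of_lt h3 hj hk
  exact this

/-- LLN. -/
theorem straight_cost_proof (F : Measure ℝ) [IsProbabilityMeasure F] (hpos : F (Set.Iio 0) = 0)
    (h2 : Integrable (fun y : ℝ => y ^ 2) F) :
    ∃ C' : ℝ, 0 < C' ∧
      Filter.Tendsto (fun n : ℕ => (Measure.pi (fun _ : TEdge 2 (n + 1) => F))
          {t | C' * ((n + 1 : ℕ) : ℝ) < cost t (0 : Fin 2 → ℤ) (straight (n + 1))})
        Filter.atTop (nhds 0) := by
  have hmem : MemLp (id : ℝ → ℝ) 2 F :=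
    (memLp_two_iff_integrable_sq (aestronglyMeasurable_id)).2 (by simpa using h2)
  set μ : ℝ := ∫ y, y ∂F with hμ
  have hae : ∀ᵐ y ∂F, (0 : ℝ) ≤ y := by
    rw [ae_iff]
    have : {a : ℝ | ¬ 0 ≤ a} = Set.Iio 0 := by
      ext a; simp
    rw [this]; exact hpos
  have hμ0 : 0 ≤ μ := integral_nonneg_of_ae hae
  set V : ℝ := variance (id : ℝ → ℝ) F with hV
  refine ⟨μ + 1, by positivity, ?_⟩
  have key : ∀ n : ℕ, (Measure.pi (fun _ : TEdge 2 (n + 1) => F))
      {t | (μ + 1) * ((n + 1 : ℕ) : ℝ) < cost t (0 : Fin 2 → ℤ) (straight (n + 1))} ≤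
      ENNReal.ofReal (V / ((n + 1 : ℕ) : ℝ)) := by
    intro n
    set N := n + 1 with hN
    have hNpos : (0 : ℝ) < (N : ℝ) := by positivity
    set P := Measure.pi (fun _ : TEdge 2 N => F) with hP
    let e : ℕ → TEdge 2 N := fun j => edgeOf N ((0 : Fin 2 → ℤ) + Pi.single 0 (j : ℤ)) (0, true)
    let X : ℕ → (TEdge 2 N → ℝ) → ℝ := fun j t => t (e j)
    have hmp : ∀ j, MeasurePreserving (Function.eval (e j)) P F := fun j =>
      measurePreserving_eval (fun _ : TEdge 2 N => F) (e j)
    have hX2 : ∀ j, MemLp (X j) 2 P := by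
      intro j
      exact hmem.comp_measurePreserving (hmp j)
    have hXint : ∀ j, ∫ t, X j t ∂P = μ := by
      intro j
      have := (hmp j).map_eq
      rw [hμ, ← this, integral_map (hmp j).measurable.aemeasurable (by fun_prop)]
    have hXvar : ∀ j, variance (X j) P = V := by
      intro j
      have h := (hmp j).map_eq
      rw [hV, ← h, variance_map (by fun_prop) (hmp j).measurable.aemeasurable]
      rfl
    have hind : iIndepFun (fun (i : TEdge 2 N) (t : TEdge 2 N → ℝ) => t i) P := by
      have := iIndepFun_pi (μ := fun _ : TEdge 2 N => F) (X := fun _ => (id : ℝ → ℝ))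
        (fun _ => aemeasurable_id)
      simpa using this
    have hpair : Set.Pairwise (↑(Finset.range N) : Set ℕ) fun i j => X i ⟂ᵢ[P] X j := by
      intro i hi j hj hij
      have hi' : i < N := by simpa using hi
      have hj' : j < N := by simpa using hj
      have hne : e i ≠ e j := fun h => hij (h11_edge_inj N i j hi' hj' h)
      exact hind.indepFun hne
    have hvs := IndepFun.variance_sum (μ := P) (X := X) (s := Finset.range N)
      (fun i _ => hX2 i) hpair
    have hvs' : variance (∑ i ∈ Finset.range N, X i) P = N * V := by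
      rw [hvs]; simp [hXvar]
    have hSmem : MemLp (∑ i ∈ Finset.range N, X i) 2 P :=
      memLp_finsetSum' _ (fun i _ => hX2 i)
    have hmean : P[(∑ i ∈ Finset.range N, X i)] = N * μ := by
      have : P[(∑ i ∈ Finset.range N, X i)] = ∑ i ∈ Finset.range N, ∫ t, X i t ∂P := by
        simp only [Finset.sum_apply]
        exact integral_finsetSum _ (fun i _ => (hX2 i).integrable (by norm_num))
      rw [this]; simp [hXint]
    have hcheb := meas_ge_le_variance_div_sq (μ := P) hSmem hNpos
    rw [hvs', hmean] at hcheb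
    have hsub : {t : TEdge 2 N → ℝ | (μ + 1) * ((N : ℕ) : ℝ) <
        cost t (0 : Fin 2 → ℤ) (straight N)} ⊆
        {ω | (N : ℝ) ≤ |(∑ i ∈ Finset.range N, X i) ω - N * μ|} := by
      intro t ht
      simp only [Set.mem_ofPred_eq] at ht ⊢
      rw [h11_cost_straight] at ht
      have : (∑ i ∈ Finset.range N, X i) t =
        ∑ j ∈ Finset.range N, t (edgeOf N ((0 : Fin 2 → ℤ) + Pi.single 0 (j : ℤ)) (0, true)) := by
        simp only [Finset.sum_apply]; rfl
      rw [this]
      refine le_trans ?_ (le_abs_self _)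
      nlinarith
    refine (measure_mono hsub).trans (hcheb.trans ?_)
    apply ENNReal.ofReal_le_ofReal
    rw [div_le_div_iff₀ (by positivity) (by positivity)]
    have : (N : ℝ) * V * N = V * (N : ℝ) ^ 2 := by ring
    rw [this]
  have hlim : Filter.Tendsto (fun n : ℕ => ENNReal.ofReal (V / ((n + 1 : ℕ) : ℝ)))
      Filter.atTop (nhds 0) := by
    have h0 : Filter.Tendsto (fun n : ℕ => V / ((n + 1 : ℕ) : ℝ)) Filter.atTop (nhds 0) := by
      have := (tendsto_const_div_atTop_nhds_zero_nat V).comp (Filter.tendsto_add_atTop_nat 1)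
      exact this
    have := ENNReal.tendsto_ofReal h0
    simpa using this
  exact tendsto_of_tendsto_of_tendsto_of_le_of_le tendsto_const_nhds hlim
    (fun _ => zero_le) key

end Pool.Agent.Lib_helper9.FPP
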